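import Pool.Agent.Helper14.TT.StU

/-!
# Project TT, module UBTof: the upper bound UBT
-/

set_option autoImplicit false

namespace Pool.Agent.Helper42.TT

open Pool.Agent.Helper14.TT Pool.Agent.Helper14.CV
open Pool.Agent.Helper76.TX (RootNum eX evX NewSymS NSS BalES BalOS antiES antiOS antiFS Sg)

/-- `G ↦ edgeF (G ∘ (1 0; 0 2^k))` as a linear map -/
private noncomputable def Lm (μ k r s : ℕ) (u1 u2 v1 v2 : ℤ) :
    (ℤ → ℤ → ℂ) →ₗ[ℂ] (ZMod (2 ^ r) → ZMod (2 ^ s) → ℂ) where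
  toFun G x y := edgeF μ u1 u2 v1 v2 (act 1 0 0 (2 ^ k) G) x y
  map_add' G H := by
    funext x y
    simp only [edgeF, act, Pi.add_apply]
    ring
  map_smul' c G := by
    funext x y
    simp only [edgeF, act, Pi.smul_apply, smul_eq_mul, RingHom.id_apply]
    ring

private theorem build (w : ℤ) (n D r s : ℕ) (V : Submodule ℂ (ZMod (2 ^ r) → ZMod (2 ^ s) → ℂ))
    (hV : Module.finrank ℂ V = D) (L : (ℤ → ℤ → ℂ) →ₗ[ℂ] (ZMod (2 ^ r) → ZMod (2 ^ s) → ℂ))
    (hmem : ∀ G ∈ NSS n w (-1), L G ∈ V) (hinj : ∀ G ∈ NSS n w (-1), L G = 0 → EqC G 0) :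
    ∃ Θ : NSS n w (-1) →ₗ[ℂ] (Fin D → ℂ), ∀ G : NSS n w (-1), Θ G = 0 → EqC (G : ℤ → ℤ → ℂ) 0 := by
  have e : V ≃ₗ[ℂ] (Fin D → ℂ) := LinearEquiv.ofFinrankEq V (Fin D → ℂ) (by simp [hV])
  let L' : NSS n w (-1) →ₗ[ℂ] V :=
    (L.comp (NSS n w (-1)).subtype).codRestrict V (fun G => hmem G G.2)
  refine ⟨e.toLinearMap.comp L', fun G hG => ?_⟩
  have h1 : e (L' G) = 0 := hG
  have h2 : L' G = 0 := by
    rw [← e.map_zero] at h1
    exact e.injective h1
  have h3 : L (G : ℤ → ℤ → ℂ) = 0 := congrArg Subtype.val h2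
  exact hinj G G.2 h3

private theorem numE {k : ℕ} (hk : 3 ≤ k) {d : ℕ}
    (h : 4 * (d : ℤ) = 4 ^ (k - 2) + 2 ^ (k - 2) * (-1 * (1 + 1))) :
    d = 2 ^ (k - 3) * (2 ^ (k - 3) - 1) := by
  obtain ⟨j, rfl⟩ : ∃ j, k = j + 3 := ⟨k - 3, by omega⟩
  rw [show j + 3 - 2 = j + 1 by omega] at h
  rw [show j + 3 - 3 = j by omega]
  obtain ⟨b, hb⟩ : ∃ b : ℕ, 2 ^ j = b + 1 := ⟨2 ^ j - 1, by
    have := Nat.one_le_two_pow (n := j)
    omega⟩
  have h2 : (2 : ℤ) ^ j = b + 1 := by exact_mod_cast hb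
  have h4 : (4 : ℤ) ^ (j + 1) = 4 * ((b + 1) * (b + 1)) := by
    rw [show (4 : ℤ) = 2 * 2 by norm_num, mul_pow, pow_succ, h2]
    ring
  rw [h4, pow_succ, h2] at h
  rw [hb, Nat.add_sub_cancel]
  have : (d : ℤ) = ((b + 1) * b : ℕ) := by
    push_cast
    linarith
  exact_mod_cast this

private theorem numO {k : ℕ} (hk : 2 ≤ k) {d : ℕ} {w : ℤ} (hw : w = 1 ∨ w = -1)
    (h : 8 * (d : ℤ) = 4 ^ (k - 1) + 2 ^ (k - 1) * (2 * (w * -1 * -1))) :
    d = if w = 1 then 2 ^ (k - 2) * (2 ^ (k - 2) + 1) / 2 else 2 ^ (k - 2) * (2 ^ (k - 2) - 1) / 2 := by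
  obtain ⟨j, rfl⟩ : ∃ j, k = j + 2 := ⟨k - 2, by omega⟩
  rw [show j + 2 - 1 = j + 1 by omega] at h
  rw [show j + 2 - 2 = j by omega]
  obtain ⟨b, hb⟩ : ∃ b : ℕ, 2 ^ j = b + 1 := ⟨2 ^ j - 1, by
    have := Nat.one_le_two_pow (n := j)
    omega⟩
  have h2 : (2 : ℤ) ^ j = b + 1 := by exact_mod_cast hb
  have h4 : (4 : ℤ) ^ (j + 1) = 4 * ((b + 1) * (b + 1)) := by
    rw [show (4 : ℤ) = 2 * 2 by norm_num, mul_pow, pow_succ, h2]
    ring
  rw [h4, pow_succ, h2] at h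
  rw [hb]
  rcases hw with rfl | rfl
  · rw [if_pos rfl]
    have h5 : 2 * d = (b + 1) * (b + 1 + 1) := by
      have : (2 * d : ℤ) = (b + 1) * (b + 1 + 1) := by linarith
      exact_mod_cast this
    rw [← h5]
    omega
  · rw [if_neg (by norm_num), Nat.add_sub_cancel]
    have h5 : 2 * d = (b + 1) * b := by
      have : (2 * d : ℤ) = (b + 1) * b := by linarith
      exact_mod_cast this
    rw [← h5]
    omega

theorem hUBTof : UBTof := by
  intro hBal hE1 hDimE hE2 hO1 hKerO hO2 w n hn hw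
  have hsg : Sg w := by
    rcases hw with h | h
    · exact Or.inr h
    · exact Or.inl h.1
  have hsg1 : Sg (-1) := Or.inr rfl
  rcases Nat.even_or_odd' n with ⟨k, hk | hk⟩
  · -- even exponent
    subst hk
    have hw1 : w = -1 := by
      rcases hw with h | h
      · exact h
      · omega
    subst hw1
    have hk2 : 2 ≤ k := by omega
    have key : ∀ G ∈ NSS (2 * k) (-1) (-1), Lm 1 k (k - 1) (k - 1) 1 1 (-1) 1 G ∈ antiES k (-1) 1 ∧
        (Lm 1 k (k - 1) (k - 1) 1 1 (-1) 1 G = 0 → EqC G 0) := by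
      intro G hG
      have hN : NewSymS (2 * k) (-1) (-1) G := hG
      have hB := (hBal (-1) (-1) k G (by omega)).1 hN
      obtain ⟨a1, a2⟩ := hE1 (-1) (-1) k _ hsg1 hsg1 hk2 hB
      rw [neg_neg] at a1
      refine ⟨a1, fun h0 => ?_⟩
      have h3 := a2 (fun x y => congrFun (congrFun h0 x) y)
      exact (hBal (-1) (-1) k G (by omega)).2.2 hN.1.1 h3
    rcases Nat.lt_or_ge k 3 with h3 | h3
    · have hk' : k = 2 := by omega
      subst hk'
      have hd : dT (-1) (2 * 2) = 0 := by simp [dT]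
      rw [hd]
      refine ⟨0, fun G _ => ?_⟩
      obtain ⟨a1, a2⟩ := key G G.2
      exact a2 (hE2 _ a1)
    · have hd : dT (-1) (2 * k) = 2 ^ (k - 3) * (2 ^ (k - 3) - 1) := by
        unfold dT
        rw [if_neg (by omega), if_pos (by omega)]
        have : 2 * k / 2 = k := by omega
        rw [this]
      rw [hd]
      exact build (-1) (2 * k) _ (k - 1) (k - 1) (antiES k (-1) 1)
        (numE h3 (hDimE (-1) 1 k hsg1 (Or.inl rfl) h3)) (Lm 1 k (k - 1) (k - 1) 1 1 (-1) 1)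
        (fun G hG => (key G hG).1) (fun G hG => (key G hG).2)
  · -- odd exponent
    subst hk
    have hk1 : 1 ≤ k := by omega
    have hsg2 : Sg (w * -1) := by
      rcases hsg with h | h
      · right; rw [h]; norm_num
      · left; rw [h]; norm_num
    have key : ∀ G ∈ NSS (2 * k + 1) w (-1), Lm 0 k k k 1 0 0 1 G ∈ antiOS k (w * -1) (-1) ∧
        Rq k (Lm 0 k k k 1 0 0 1 G) = 0 ∧ (Lm 0 k k k 1 0 0 1 G = 0 → EqC G 0) := by
      intro G hG
      have hN : NewSymS (2 * k + 1) w (-1) G := hG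
      have hB := (hBal w (-1) k G hk1).2.1 hN
      obtain ⟨a1, a2, a3⟩ := hO1 w (-1) k _ hsg hsg1 hk1 hB
      refine ⟨a1, a2, fun h0 => ?_⟩
      have h3 := a3 (fun x y => congrFun (congrFun h0 x) y)
      exact (hBal w (-1) k G hk1).2.2 hN.1.1 h3
    rcases Nat.lt_or_ge k 2 with h3 | h3
    · have hk' : k = 1 := by omega
      subst hk'
      have hd : dT w (2 * 1 + 1) = 0 := by simp [dT]
      rw [hd]
      refine ⟨0, fun G _ => ?_⟩
      obtain ⟨a1, a2, a3⟩ := key G G.2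
      exact a3 (hO2 _ _ a1)
    · have hd : dT w (2 * k + 1) = if w = 1 then 2 ^ (k - 2) * (2 ^ (k - 2) + 1) / 2
          else 2 ^ (k - 2) * (2 ^ (k - 2) - 1) / 2 := by
        unfold dT
        rw [if_neg (by omega), if_neg (by omega)]
        have : (2 * k + 1) / 2 = k := by omega
        rw [this]
      rw [hd]
      exact build w (2 * k + 1) _ k k (antiOS k (w * -1) (-1) ⊓ LinearMap.ker (Rq k))
        (numO h3 hsg (hKerO (w * -1) (-1) k hsg2 hsg1 h3)) (Lm 0 k k k 1 0 0 1)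
        (fun G hG => ⟨(key G hG).1, LinearMap.mem_ker.2 (key G hG).2.1⟩) (fun G hG => (key G hG).2.2)

end Pool.Agent.Helper42.TT
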